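import Pool.Agent.helper52.FS.SpecP

/-!
# Row fs:PAR (MP_07c750_an): Parseval
-/

open MeasureTheory Set

set_option autoImplicit false

namespace Pool.Agent.FS

noncomputable section

theorem PAR_int (k : ℤ) : ∫ v in Icc (0 : ℝ) 4, ee (Real.pi * k * v / 2) = if k = 0 then 4 else 0 := by
  rw [integral_Icc_eq_integral_Ioc, ← intervalIntegral.integral_of_le (by norm_num : (0 : ℝ) ≤ 4)]
  split_ifs with hk
  · subst hk
    have h1 : ∀ v : ℝ, ee (Real.pi * ((0 : ℤ) : ℝ) * v / 2) = 1 := by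
      intro v
      unfold ee
      simp
    simp only [h1]
    simp
  · set c : ℂ := (Real.pi : ℂ) * k / 2 * Complex.I with hc
    have hc0 : c ≠ 0 := by
      rw [hc]
      have h1 : (Real.pi : ℂ) ≠ 0 := by exact_mod_cast Real.pi_ne_zero
      have h2 : (k : ℂ) ≠ 0 := by exact_mod_cast hk
      exact mul_ne_zero (div_ne_zero (mul_ne_zero h1 h2) two_ne_zero) Complex.I_ne_zero
    have h1 : ∀ v : ℝ, ee (Real.pi * k * v / 2) = Complex.exp (c * v) := by
      intro v
      unfold ee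
      rw [hc]
      congr 1
      push_cast
      ring
    simp only [h1]
    rw [integral_exp_mul_complex hc0]
    have h2 : Complex.exp (c * ((4 : ℝ) : ℂ)) = 1 := by
      have h3 : c * ((4 : ℝ) : ℂ) = (k : ℂ) * (2 * Real.pi * Complex.I) := by
        rw [hc]
        push_cast
        ring
      rw [h3]
      exact Complex.exp_int_mul_two_pi_mul_I k
    rw [h2]
    simp

theorem PAR_cont (k : ℤ) : Continuous fun v : ℝ => ee (Real.pi * k * v / 2) := by
  unfold ee
  fun_prop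

theorem PAR_mul (i j : ℤ) (v : ℝ) : ee (Real.pi * i * v / 2) * (starRingEnd ℂ) (ee (Real.pi * j * v / 2)) = ee (Real.pi * ((i - j : ℤ) : ℝ) * v / 2) := by
  unfold ee
  rw [← Complex.exp_conj, ← Complex.exp_add]
  congr 1
  rw [map_mul, Complex.conj_I, Complex.conj_ofReal]
  push_cast
  ring

theorem PAR_proof : PAR_stmt := by
  classical
  intro S a
  have h1 : ∀ v : ℝ, ((‖tp S a v‖ ^ 2 : ℝ) : ℂ) = ∑ i ∈ S, ∑ j ∈ S, a i * (starRingEnd ℂ) (a j) * ee (Real.pi * ((i - j : ℤ) : ℝ) * v / 2) := by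
    intro v
    have h2 : ((‖tp S a v‖ ^ 2 : ℝ) : ℂ) = tp S a v * (starRingEnd ℂ) (tp S a v) := by
      rw [Complex.mul_conj, Complex.normSq_eq_norm_sq]
    rw [h2]
    unfold tp
    rw [map_sum, Finset.sum_mul_sum]
    refine Finset.sum_congr rfl fun i _ => Finset.sum_congr rfl fun j _ => ?_
    rw [map_mul, ← PAR_mul]
    ring
  have h3 : ((∫ v in Icc (0 : ℝ) 4, ‖tp S a v‖ ^ 2 : ℝ) : ℂ) = ((4 * ∑ j ∈ S, ‖a j‖ ^ 2 : ℝ) : ℂ) := by
    rw [← integral_complex_ofReal]
    simp only [h1]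
    have hint : ∀ i j : ℤ, IntegrableOn (fun v : ℝ => a i * (starRingEnd ℂ) (a j) * ee (Real.pi * ((i - j : ℤ) : ℝ) * v / 2)) (Icc 0 4) :=
      fun i j => ((PAR_cont (i - j)).const_mul _ |>.continuousOn).integrableOn_Icc
    rw [integral_finsetSum _ fun i _ => integrable_finsetSum _ fun j _ => hint i j]
    have h4 : ∀ i ∈ S, ∫ v in Icc (0 : ℝ) 4, ∑ j ∈ S, a i * (starRingEnd ℂ) (a j) * ee (Real.pi * ((i - j : ℤ) : ℝ) * v / 2) = 4 * ((‖a i‖ ^ 2 : ℝ) : ℂ) := by
      intro i hi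
      rw [integral_finsetSum _ fun j _ => hint i j]
      have h5 : ∀ j ∈ S, ∫ v in Icc (0 : ℝ) 4, a i * (starRingEnd ℂ) (a j) * ee (Real.pi * ((i - j : ℤ) : ℝ) * v / 2) = if i = j then 4 * ((‖a i‖ ^ 2 : ℝ) : ℂ) else 0 := by
        intro j _
        rw [MeasureTheory.integral_const_mul, PAR_int]
        by_cases hij : i = j
        · subst hij
          rw [if_pos (sub_self i), if_pos rfl, Complex.mul_conj, Complex.normSq_eq_norm_sq]
          ring
        · rw [if_neg (fun h => hij (sub_eq_zero.1 h)), if_neg hij, mul_zero]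
      rw [Finset.sum_congr rfl h5, Finset.sum_ite_eq, if_pos hi]
    rw [Finset.sum_congr rfl h4, ← Finset.mul_sum]
    push_cast
    rfl
  exact_mod_cast h3

end

end Pool.Agent.FS

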