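import Pool.Agent.helper52.FS.SpecD

/-!
# Row fs:PFU (MP_07c750_an): unions
-/

open scoped MatrixGroups ContDiff Topology UpperHalfPlane ComplexConjugate
open UpperHalfPlane MeasureTheory Filter Set

set_option autoImplicit false

namespace Pool.Agent.FS

open Pool.Agent.RS
open Pool.Agent.MS (bq BB BA SF pf)
open Pool.Agent.EN (XG MG mkX mkM fl pr)

theorem PFU_abs {a b x y A B : ℝ} (ha : |a| ≤ A) (hb : |b| ≤ B) (hx0 : 0 ≤ x) (hx1 : x ≤ 1) (hy0 : 0 ≤ y) (hy1 : y ≤ 1) :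
    |-(-a * (1 - y) + (1 - x) * -b)| ≤ A + B := by
  have h1 : |a * (1 - y)| ≤ A := by
    rw [abs_mul, abs_of_nonneg (by linarith : (0 : ℝ) ≤ 1 - y)]
    nlinarith [abs_nonneg a]
  have h2 : |(1 - x) * b| ≤ B := by
    rw [abs_mul, abs_of_nonneg (by linarith : (0 : ℝ) ≤ 1 - x)]
    nlinarith [abs_nonneg b]
  have h3 : -(-a * (1 - y) + (1 - x) * -b) = a * (1 - y) + (1 - x) * b := by ring
  rw [h3]
  exact (abs_add_le _ _).trans (add_le_add h1 h2)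

/-- porosity of a union -/
theorem PFU_por (c1 c2 R1 R2 E : ℝ) (p1 p2 : ℝ → Prop) (hc1 : 0 < c1) (hc1' : c1 < 1) (hc2 : 0 < c2) (hc2' : c2 < 1) (hR1 : 1 ≤ R1) (hR2 : 1 ≤ R2) (hE : 0 < E)
    (h1 : ∀ r v : ℝ, R1 * E ≤ r → r ≤ 1 → ∃ x ∈ Icc v (v + r), ∀ w ∈ Ioo (x - c1 * r) (x + c1 * r), p1 w)
    (h2 : ∀ r v : ℝ, R2 * E ≤ r → r ≤ 1 → ∃ x ∈ Icc v (v + r), ∀ w ∈ Ioo (x - c2 * r) (x + c2 * r), p2 w) :
    ∀ r v : ℝ, (2 * R2 / c1 + R1) * E ≤ r → r ≤ 1 → ∃ x ∈ Icc v (v + r), ∀ w ∈ Ioo (x - c1 * c2 / 2 * r) (x + c1 * c2 / 2 * r), p1 w ∧ p2 w := by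
  intro r v hr hr1
  have e0 : 0 < 2 * R2 / c1 * E := by positivity
  have e1 : R1 * E ≤ r := by linarith
  have hr0 : 0 < r := lt_of_lt_of_le (by positivity) e1
  obtain ⟨x1, ⟨g1, g2⟩, g3⟩ := h1 r v e1 hr1
  have e2 : R2 * E ≤ c1 * r / 2 := by
    have e3 : 2 * R2 / c1 * E ≤ r := by nlinarith [mul_pos (lt_of_lt_of_le one_pos hR1) hE]
    have e4 : 2 * R2 / c1 * E = 2 * (R2 * E) / c1 := by ring
    rw [e4, div_le_iff₀ hc1] at e3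
    linarith
  have e5 : c1 * r < r := by nlinarith
  have e6 : 0 < c1 * r := by positivity
  obtain ⟨v2, w1, w2, w3, w4⟩ : ∃ v2 : ℝ, v ≤ v2 ∧ v2 + c1 * r / 2 ≤ v + r ∧ x1 - c1 * r / 2 ≤ v2 ∧ v2 ≤ x1 := by
    rcases le_or_gt x1 (v + r / 2) with hx | hx
    · exact ⟨x1, g1, by linarith, by linarith, le_rfl⟩
    · exact ⟨x1 - c1 * r / 2, by linarith, by linarith, le_rfl, by linarith⟩
  obtain ⟨x2, ⟨k1, k2⟩, k3⟩ := h2 (c1 * r / 2) v2 e2 (by linarith)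
  refine ⟨x2, ⟨by linarith, by linarith⟩, fun w hw => ?_⟩
  have e7 : c1 * c2 / 2 * r = c2 * (c1 * r / 2) := by ring
  have e8 : c2 * (c1 * r / 2) < c1 * r / 2 := by nlinarith
  rw [e7] at hw
  obtain ⟨q1, q2⟩ := hw
  exact ⟨g3 w ⟨by linarith, by linarith⟩, k3 w ⟨q1, q2⟩⟩

theorem PFU_proof (hSFP : IR.SFP_stmt) : PFU_stmt := by
  intro Γ c1 R1 C1 c2 R2 C2 hc1 hc1' hR1 hC1 hc2 hc2' hR2 hC2
  have hcc : 0 < c1 * c2 := mul_pos hc1 hc2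
  have hcc1 : c1 * c2 / 2 < c1 := by nlinarith
  have hcc2 : c1 * c2 / 2 < c2 := by nlinarith
  refine ⟨c1 * c2 / 2, 2 * R2 / c1 + R1, C1 + C2, by positivity, by linarith, ?_, by linarith, ?_⟩
  · have : 0 < 2 * R2 / c1 := by positivity
    linarith
  intro n Ψ Ψa Ψn Ψl Φ Φa Φn Φl a b
  have s1 := (hSFP Γ Ψ Ψa Ψn Ψl a.sf).2.1
  have s2 := (hSFP Γ Φ Φa Φn Φl b.sf).2.1
  have s3 := (hSFP Γ _ _ _ _ s1).1 _ _ _ _ s2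
  have s4 := (hSFP Γ _ _ _ _ s3).2.1
  have hz : ∀ g, Ψ g = 0 → Φ g = 0 → 1 - (1 - Ψ g) * (1 - Φ g) = 0 := fun g h1 h2 => by rw [h1, h2]; ring
  refine ⟨_, _, _, _, ⟨s4, ?_, ?_, ?_, ?_, ?_⟩, ?_⟩
  · intro g
    obtain ⟨u1, u2⟩ := a.nn g
    obtain ⟨v1, v2⟩ := b.nn g
    constructor
    · show (0 : ℝ) ≤ 1 - (1 - Ψ g) * (1 - Φ g)
      nlinarith
    · show 1 - (1 - Ψ g) * (1 - Φ g) ≤ 1
      nlinarith [mul_nonneg (by linarith : (0 : ℝ) ≤ 1 - Ψ g) (by linarith : (0 : ℝ) ≤ 1 - Φ g)]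
  · intro g
    exact PFU_abs (a.bn g) (b.bn g) (a.nn g).1 (a.nn g).2 (b.nn g).1 (b.nn g).2
  · intro g
    have := PFU_abs (a.bl g) (b.bl g) (a.nn g).1 (a.nn g).2 (b.nn g).1 (b.nn g).2
    rw [add_mul]
    exact this
  · intro g r v hr hr1
    obtain ⟨x, hx, hx'⟩ := PFU_por c1 c2 R1 R2 (Real.exp (-n)) (fun w => Ψ (g * lM w) = 0) (fun w => Φ (g * lM w) = 0) hc1 hc1' hc2 hc2' hR1 hR2 (Real.exp_pos _)
      (fun r v h1 h2 => a.fw g r v h1 h2) (fun r v h1 h2 => b.fw g r v h1 h2) r v hr hr1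
    exact ⟨x, hx, fun w hw => hz _ (hx' w hw).1 (hx' w hw).2⟩
  · intro g r v hr hr1
    obtain ⟨x, hx, hx'⟩ := PFU_por c1 c2 R1 R2 (Real.exp (-n))
      (fun z => ∀ τ o : ℝ, |τ| ≤ 7 / 10 → |o| ≤ c1 → Ψ (g * nM z * aM τ * lM o * aM (-n)) = 0)
      (fun z => ∀ τ o : ℝ, |τ| ≤ 7 / 10 → |o| ≤ c2 → Φ (g * nM z * aM τ * lM o * aM (-n)) = 0) hc1 hc1' hc2 hc2' hR1 hR2 (Real.exp_pos _)
      (fun r v h1 h2 => a.bw g r v h1 h2) (fun r v h1 h2 => b.bw g r v h1 h2) r v hr hr1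
    exact ⟨x, hx, fun z hz' τ o hτ ho => hz _ ((hx' z hz').1 τ o hτ (by linarith)) ((hx' z hz').2 τ o hτ (by linarith))⟩
  · rintro x (⟨g, hg, hg1⟩ | ⟨g, hg, hg1⟩)
    · exact ⟨g, hg, by show 1 - (1 - Ψ g) * (1 - Φ g) = 1; rw [hg1]; ring⟩
    · exact ⟨g, hg, by show 1 - (1 - Ψ g) * (1 - Φ g) = 1; rw [hg1]; ring⟩

end Pool.Agent.FS

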