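import Pool.Agent.helper78.FS.Spec

/-!
Project fs: (MP_55808c_co), row LFT: a symmetric 2-cochain as a function of the set of corners.
-/

namespace Pool.Agent.helper78.FS

open Finset Real
open Classical

noncomputable section

theorem LFT_aux (V : Type) [DecidableEq V] (ω : V → V → V → ZMod 2) (hω : Sym3 ω) (a b c x y z : V)
    (h : ({a, b, c} : Finset V) = {x, y, z}) : ω x y z = ω a b c := by
  obtain ⟨h1, h2, h3⟩ := hω
  have h4 : ∀ a b, ω a b a = 0 := fun a b => by rw [h2]; exact h3 a b
  have h5 : ∀ a b, ω b a a = 0 := fun a b => by rw [h1]; exact h4 a b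
  have hx : x ∈ ({a, b, c} : Finset V) := by rw [h]; simp
  have hy : y ∈ ({a, b, c} : Finset V) := by rw [h]; simp
  have hz : z ∈ ({a, b, c} : Finset V) := by rw [h]; simp
  have ha : a ∈ ({x, y, z} : Finset V) := by rw [← h]; simp
  have hb : b ∈ ({x, y, z} : Finset V) := by rw [← h]; simp
  have hc : c ∈ ({x, y, z} : Finset V) := by rw [← h]; simp
  simp only [Finset.mem_insert, Finset.mem_singleton] at hx hy hz ha hb hc
  clear h
  have key : ∀ u v w : V, ω v u w = ω u v w ∧ ω u w v = ω u v w ∧ ω w v u = ω u v w ∧ ω v w u = ω u v w ∧ ω w u v = ω u v w := by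
    intro u v w
    refine ⟨h1 u v w, h2 u v w, ?_, ?_, ?_⟩
    · rw [h1 v w u, h2 v u w, h1 u v w]
    · rw [h2 v u w, h1 u v w]
    · rw [h1 u w v, h2 u v w]
  rcases hx with hx | hx | hx <;> rcases hy with hy | hy | hy <;> rcases hz with hz | hz | hz <;>
    subst hx <;> first
    | (subst hy; subst hz; first | rfl | exact (key _ _ _).1 | exact (key _ _ _).2.1 | exact (key _ _ _).2.2.1 | exact (key _ _ _).2.2.2.1 | exact (key _ _ _).2.2.2.2)
    | (clear key h1 h2; rcases ha with ha | ha | ha <;> rcases hb with hb | hb | hb <;> rcases hc with hc | hc | hc <;> subst_vars <;> simp only [h3, h4, h5])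

theorem LFT : LFT_stmt := by
  intro V _ ω hω a b c
  unfold Lft
  have h : ∃ p : V × V × V, ({a, b, c} : Finset V) = {p.1, p.2.1, p.2.2} := ⟨(a, b, c), rfl⟩
  rw [dif_pos h]
  exact LFT_aux V ω hω a b c _ _ _ h.choose_spec

end

end Pool.Agent.helper78.FS
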