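import Pool.Agent.helper78.FS.Spec

/-!
Project fs: (MP_55808c_co), row LIN: linear algebra over the field with two elements.
-/

namespace Pool.Agent.helper78.FS

open Finset Real
open Classical

noncomputable section

theorem LIN_ker (a b : Type) [Fintype a] [Fintype b] [DecidableEq a] [DecidableEq b]
    (A : Matrix b a (ZMod 2)) (x0 : a → ZMod 2) (h : ∀ x, A.mulVec x = 0 → x = 0 ∨ x = x0) :
    Fintype.card a ≤ A.rank + 1 := by
  have h1 := LinearMap.finrank_range_add_finrank_ker A.mulVecLin
  rw [Module.finrank_fintype_fun_eq_card] at h1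
  have h2 : Module.finrank (ZMod 2) (LinearMap.ker A.mulVecLin) ≤ 1 := by
    by_contra hc
    push Not at hc
    have h3 : Nat.card (LinearMap.ker A.mulVecLin) = Nat.card (ZMod 2) ^ Module.finrank (ZMod 2) (LinearMap.ker A.mulVecLin) :=
      Module.natCard_eq_pow_finrank
    have h4 : Nat.card (ZMod 2) = 2 := by simp
    rw [h4] at h3
    have h5 : Nat.card (LinearMap.ker A.mulVecLin) ≤ 2 := by
      have h6 : (LinearMap.ker A.mulVecLin : Set (a → ZMod 2)) ⊆ ({0, x0} : Finset (a → ZMod 2)) := by
        intro x hx
        have hx' : A.mulVec x = 0 := by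
          have := LinearMap.mem_ker.1 hx
          simpa using this
        rcases h x hx' with h | h <;> simp [h]
      have h7 : Nat.card (LinearMap.ker A.mulVecLin) ≤ Nat.card (({0, x0} : Finset (a → ZMod 2)) : Set (a → ZMod 2)) :=
        Nat.card_mono (Finset.finite_toSet _) h6
      refine h7.trans ?_
      rw [Nat.card_coe_set_eq, Set.ncard_coe_finset]
      exact Finset.card_le_two
    have h8 : 2 ^ 2 ≤ 2 ^ Module.finrank (ZMod 2) (LinearMap.ker A.mulVecLin) := Nat.pow_le_pow_right (by norm_num) hc
    omega
  unfold Matrix.rank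
  omega

theorem LIN : LIN_stmt := by
  intro a b c _ _ _ _ _ _ A B x0 y0 hBA hA hB
  have h1 := LIN_ker a b A x0 hA
  have h2 := LIN_ker c b B.transpose y0 (by
    intro y hy
    rw [Matrix.mulVec_transpose] at hy
    exact hB y hy)
  rw [Matrix.rank_transpose] at h2
  have h3 := Matrix.rank_add_rank_le_card_of_mul_eq_zero hBA
  omega

end

end Pool.Agent.helper78.FS
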