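import Pool.Agent.helper78.FS.Spec

/-!
Project fs: (MP_55808c_co), row SIA: the Siamese points are covered by few balls.
-/

namespace Pool.Agent.helper78.FS

open Finset Real
open Classical

noncomputable section

/-- admissible sets of Siamese points -/
def SIA_adm (r : ℝ) (c : E3 → Fin 7) (N : ℕ) (P : Finset E3) : Prop :=
  (∀ p ∈ P, Siam r c p) ∧ ∀ p ∈ P, ∀ q ∈ P, p ≠ q → (N : ℝ) ≤ dist p q

theorem SIA_card (r : ℝ) (c : E3 → Fin 7) (N : ℕ) (h : ¬ ManySiam r c N) (P : Finset E3) (hP : SIA_adm r c N P) :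
    P.card ≤ N := by
  by_contra hc
  push Not at hc
  apply h
  obtain ⟨T, hT, hTc⟩ := Finset.exists_subset_card_eq hc.le
  have e := T.equivFinOfCardEq hTc
  refine ⟨fun i => (e.symm i : E3), fun i => hP.1 _ (hT (e.symm i).2), ?_⟩
  intro i j hij
  refine hP.2 _ (hT (e.symm i).2) _ (hT (e.symm j).2) ?_
  intro hh
  exact hij (e.symm.injective (Subtype.ext hh))

theorem SIA : SIA_stmt := by
  intro hMRG N r c hN h
  have hN0 : (0 : ℝ) < N := by exact_mod_cast hN
  have hne : ({n | ∃ P, SIA_adm r c N P ∧ P.card = n} : Set ℕ).Nonempty :=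
    ⟨0, ∅, ⟨by simp, by simp⟩, by simp⟩
  have hbd : BddAbove ({n | ∃ P, SIA_adm r c N P ∧ P.card = n} : Set ℕ) := by
    refine ⟨N, ?_⟩
    rintro n ⟨P, hP, rfl⟩
    exact SIA_card r c N h P hP
  obtain ⟨P, hP, hPc⟩ := Nat.sSup_mem hne hbd
  have hmax : ∀ P', SIA_adm r c N P' → P'.card ≤ P.card := by
    intro P' hP'
    rw [hPc]
    exact le_csSup hbd ⟨P', hP', rfl⟩
  have hcov : ∀ s, Siam r c s → ∃ p ∈ P, dist s p < N := by
    intro s hs
    by_contra hc
    push Not at hc
    have hsP : s ∉ P := by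
      intro hsP
      have := hc s hsP
      rw [dist_self] at this
      linarith
    have hadm : SIA_adm r c N (insert s P) := by
      refine ⟨?_, ?_⟩
      · intro p hp
        rcases Finset.mem_insert.1 hp with rfl | hp
        · exact hs
        · exact hP.1 p hp
      · intro p hp q hq hpq
        rcases Finset.mem_insert.1 hp with hp' | hp'
        · rcases Finset.mem_insert.1 hq with hq' | hq'
          · exact absurd (hp'.trans hq'.symm) hpq
          · rw [hp']
            exact hc q hq'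
        · rcases Finset.mem_insert.1 hq with hq' | hq'
          · rw [hq', dist_comm]
            exact hc p hp'
          · exact hP.2 p hp' q hq' hpq
    have h1 := hmax _ hadm
    rw [Finset.card_insert_of_notMem hsP] at h1
    omega
  obtain ⟨R, hR1, hR2, Q, hQP, hQ1, hQ2⟩ := hMRG P N hN0
  have hPN : P.card ≤ N := SIA_card r c N h P hP
  refine ⟨R, hR1, ?_, Q, (Finset.card_le_card hQP).trans hPN, hQ2, ?_⟩
  · refine hR2.trans (mul_le_mul_of_nonneg_right ?_ hN0.le)
    exact pow_le_pow_right₀ (by norm_num) hPN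
  · intro s hs
    obtain ⟨p, hp, hsp⟩ := hcov s hs
    obtain ⟨q, hq, hpq⟩ := hQ1 p hp
    refine ⟨q, hq, ?_⟩
    have := dist_triangle s p q
    linarith

end

end Pool.Agent.helper78.FS
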